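import Mathlib

/-! Combinators for computable functions, copied from helper673's file
`Pool/Agent/Results/MP_65fbb9_lc/Coincidence.lean`. -/

set_option autoImplicit false

namespace Pool.Agent.Helper67.BN

open Encodable

section api

variable {α β γ σ : Type} [Primcodable α] [Primcodable β] [Primcodable γ] [Primcodable σ]
variable {O : Set (ℕ →. ℕ)}

theorem ci_comp {f : β → σ} {g : α → β} (hf : ComputableIn O f) (hg : ComputableIn O g) :
    ComputableIn O fun a => f (g a) := by
  refine (Nat.RecursiveIn.comp hf hg).of_eq fun n => ?_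
  simp only [Part.map_some, Part.bind_eq_bind]
  rcases e : decode (α := α) n with - | a <;> simp [encodek]

theorem ci_pair {f : α → β} {g : α → γ} (hf : ComputableIn O f) (hg : ComputableIn O g) :
    ComputableIn O fun a => (f a, g a) := by
  refine (Nat.RecursiveIn.pair hf hg).of_eq fun n => ?_
  rcases e : decode (α := α) n with - | a <;> simp [Seq.seq]

theorem nri_prec' {f g h} (hf : Nat.RecursiveIn O f) (hg : Nat.RecursiveIn O g)
    (hh : Nat.RecursiveIn O h) :
    Nat.RecursiveIn O fun a => (f a).bind fun n => n.rec (g a)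
      fun y IH => do {let i ← IH; h (Nat.pair a (Nat.pair y i))} :=
  ((Nat.RecursiveIn.prec hg hh).comp
    (Nat.RecursiveIn.pair (Nat.Partrec.some.recursiveIn) hf)).of_eq fun a =>
    Part.ext fun s => by simp [Seq.seq]

theorem ci_nat_rec {f : α → ℕ} {g : α → σ} {h : α → ℕ × σ → σ} (hf : ComputableIn O f)
    (hg : ComputableIn O g) (hh : ComputableIn₂ O h) :
    ComputableIn O fun a =>
      Nat.rec (motive := fun _ => σ) (g a) (fun y IH => h a (y, IH)) (f a) := by
  refine (nri_prec' hf hg hh).of_eq fun n => ?_
  rcases e : decode (α := α) n with - | a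
  · simp
  · simp only [Part.coe_some, Part.bind_some, Part.map_some]
    induction f a <;> simp_all

theorem ci_comp₂ {f : β → γ → σ} {g : α → β} {h : α → γ} (hf : Computable₂ f)
    (hg : ComputableIn O g) (hh : ComputableIn O h) : ComputableIn O fun a => f (g a) (h a) :=
  ci_comp (f := fun p : β × γ => f p.1 p.2)
    (Computable.computableIn (f := fun p : β × γ => f p.1 p.2) hf) (ci_pair hg hh)

theorem ci_compC {f : β → σ} {g : α → β} (hf : Computable f) (hg : ComputableIn O g) :
    ComputableIn O fun a => f (g a) := ci_comp hf.computableIn hg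

theorem ci_fst : ComputableIn O (@Prod.fst α β) := ComputableIn.fst

theorem ci_snd : ComputableIn O (@Prod.snd α β) := ComputableIn.snd

theorem computable_of_ci {f : α → σ} (hf : ComputableIn ∅ f) : Computable f :=
  recursiveIn_empty_iff.1 hf

end api

/-! ### Combinators -/

/-- bounded universal quantifier -/
def ball (n : ℕ) (q : ℕ → Bool) : Bool :=
  Nat.rec (motive := fun _ => Bool) true (fun k acc => acc && q k) n

theorem ball_iff (n : ℕ) (q : ℕ → Bool) : ball n q = true ↔ ∀ k < n, q k = true := by
  induction n with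
  | zero => simp [ball]
  | succ n ih =>
    have : ball (n + 1) q = (ball n q && q n) := rfl
    rw [this, Bool.and_eq_true, ih]
    constructor
    · rintro ⟨h1, h2⟩ k hk
      rcases Nat.lt_succ_iff_lt_or_eq.1 hk with h | h
      · exact h1 k h
      · exact h ▸ h2
    · intro h
      exact ⟨fun k hk => h k (Nat.lt_succ_of_lt hk), h n (Nat.lt_succ_self n)⟩

/-- finite sum of natural numbers -/
def nsum (n : ℕ) (q : ℕ → ℕ) : ℕ :=
  Nat.rec (motive := fun _ => ℕ) 0 (fun k acc => acc + q k) n

theorem nsum_eq (n : ℕ) (q : ℕ → ℕ) : nsum n q = ∑ k ∈ Finset.range n, q k := by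
  induction n with
  | zero => rfl
  | succ n ih => rw [Finset.sum_range_succ, ← ih]; rfl

section combinators

variable {α : Type} [Primcodable α] {O : Set (ℕ →. ℕ)}

theorem ball_comp {g : α → ℕ} {q : α → ℕ → Bool}
    (hg : ComputableIn O g) (hq : ComputableIn₂ O q) :
    ComputableIn O fun a => ball (g a) (q a) := by
  have h1 : ComputableIn O fun p : α × ℕ × Bool => p.2.2 := ci_comp ci_snd ci_snd
  have h2 : ComputableIn O fun p : α × ℕ × Bool => q p.1 p.2.1 :=
    ci_comp (f := fun p : α × ℕ => q p.1 p.2) hq (ci_pair ci_fst (ci_comp ci_fst ci_snd))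
  have h3 : ComputableIn₂ O fun (a : α) (p : ℕ × Bool) => p.2 && q a p.1 :=
    ci_comp₂ Primrec.and.to_comp h1 h2
  exact ci_nat_rec hg (ComputableIn.const true) h3

theorem nsum_comp {g : α → ℕ} {q : α → ℕ → ℕ}
    (hg : ComputableIn O g) (hq : ComputableIn₂ O q) :
    ComputableIn O fun a => nsum (g a) (q a) := by
  have h1 : ComputableIn O fun p : α × ℕ × ℕ => p.2.2 := ci_comp ci_snd ci_snd
  have h2 : ComputableIn O fun p : α × ℕ × ℕ => q p.1 p.2.1 :=
    ci_comp (f := fun p : α × ℕ => q p.1 p.2) hq (ci_pair ci_fst (ci_comp ci_fst ci_snd))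
  have h3 : ComputableIn₂ O fun (a : α) (p : ℕ × ℕ) => p.2 + q a p.1 :=
    ci_comp₂ Primrec.nat_add.to_comp h1 h2
  exact ci_nat_rec hg (ComputableIn.const 0) h3

theorem cand {f g : α → Bool} (hf : ComputableIn O f) (hg : ComputableIn O g) :
    ComputableIn O fun a => f a && g a := ci_comp₂ Primrec.and.to_comp hf hg

theorem cor {f g : α → Bool} (hf : ComputableIn O f) (hg : ComputableIn O g) :
    ComputableIn O fun a => f a || g a := ci_comp₂ Primrec.or.to_comp hf hg

theorem cnot {f : α → Bool} (hf : ComputableIn O f) : ComputableIn O fun a => !(f a) :=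
  ci_compC Primrec.not.to_comp hf

theorem ceqN {f g : α → ℕ} (hf : ComputableIn O f) (hg : ComputableIn O g) :
    ComputableIn O fun a => decide (f a = g a) := by
  have : Primrec₂ fun m n : ℕ => decide (m = n) := Primrec.eq.decide
  exact ci_comp₂ this.to_comp hf hg

theorem ceqB {f g : α → Bool} (hf : ComputableIn O f) (hg : ComputableIn O g) :
    ComputableIn O fun a => decide (f a = g a) := by
  have : Primrec₂ fun m n : Bool => decide (m = n) := Primrec.eq.decide
  exact ci_comp₂ this.to_comp hf hg

theorem clt {f g : α → ℕ} (hf : ComputableIn O f) (hg : ComputableIn O g) :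
    ComputableIn O fun a => decide (f a < g a) := by
  have : Primrec₂ fun m n : ℕ => decide (m < n) := Primrec.nat_lt.decide
  exact ci_comp₂ this.to_comp hf hg

theorem cle {f g : α → ℕ} (hf : ComputableIn O f) (hg : ComputableIn O g) :
    ComputableIn O fun a => decide (f a ≤ g a) := by
  have : Primrec₂ fun m n : ℕ => decide (m ≤ n) := Primrec.nat_le.decide
  exact ci_comp₂ this.to_comp hf hg

theorem cadd {f g : α → ℕ} (hf : ComputableIn O f) (hg : ComputableIn O g) :
    ComputableIn O fun a => f a + g a := ci_comp₂ Primrec.nat_add.to_comp hf hg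

theorem csub {f g : α → ℕ} (hf : ComputableIn O f) (hg : ComputableIn O g) :
    ComputableIn O fun a => f a - g a := ci_comp₂ Primrec.nat_sub.to_comp hf hg

theorem cmul {f g : α → ℕ} (hf : ComputableIn O f) (hg : ComputableIn O g) :
    ComputableIn O fun a => f a * g a := ci_comp₂ Primrec.nat_mul.to_comp hf hg

theorem cdiv {f g : α → ℕ} (hf : ComputableIn O f) (hg : ComputableIn O g) :
    ComputableIn O fun a => f a / g a := ci_comp₂ Primrec.nat_div.to_comp hf hg

theorem cmod {f g : α → ℕ} (hf : ComputableIn O f) (hg : ComputableIn O g) :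
    ComputableIn O fun a => f a % g a := ci_comp₂ Primrec.nat_mod.to_comp hf hg

theorem cconst {β : Type} [Primcodable β] (b : β) : ComputableIn O fun _ : α => b :=
  ComputableIn.const b

theorem ccond {β : Type} [Primcodable β] {c : α → Bool} {f g : α → β} (hc : ComputableIn O c)
    (hf : ComputableIn O f) (hg : ComputableIn O g) :
    ComputableIn O fun a => bif c a then f a else g a := by
  have h1 : Computable fun p : Bool × β × β => bif p.1 then p.2.1 else p.2.2 :=
    Computable.cond Computable.fst (Computable.fst.comp Computable.snd)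
      (Computable.snd.comp Computable.snd)
  exact ci_compC h1 (ci_pair hc (ci_pair hf hg))

/-- powers, by recursion -/
def pw (b n : ℕ) : ℕ := Nat.rec (motive := fun _ => ℕ) 1 (fun _ r => b * r) n

theorem pw_eq (b n : ℕ) : pw b n = b ^ n := by
  induction n with
  | zero => rfl
  | succ n ih =>
    have : pw b (n + 1) = b * pw b n := rfl
    rw [this, ih, pow_succ, Nat.mul_comm]

theorem cpw (b : ℕ) {f : α → ℕ} (hf : ComputableIn O f) : ComputableIn O fun a => b ^ f a := by
  have h1 : Computable₂ fun (_ : ℕ) (p : ℕ × ℕ) => b * p.2 :=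
    (Primrec.nat_mul.to_comp.comp (Computable.const b) (Computable.snd.comp Computable.snd)).to₂
  have h2 : Computable (pw b) :=
    (Computable.nat_rec Computable.id (Computable.const 1) h1).of_eq fun a => rfl
  have h3 := ci_compC h2 hf
  have h4 : (fun a => pw b (f a)) = fun a => b ^ f a := funext fun a => pw_eq b (f a)
  rw [← h4]
  exact h3

/-- factorials, by recursion -/
def fct (n : ℕ) : ℕ := Nat.rec (motive := fun _ => ℕ) 1 (fun k r => (k + 1) * r) n

theorem fct_eq (n : ℕ) : fct n = n.factorial := by
  induction n with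
  | zero => rfl
  | succ n ih =>
    have : fct (n + 1) = (n + 1) * fct n := rfl
    rw [this, ih, Nat.factorial_succ]

theorem cfct {f : α → ℕ} (hf : ComputableIn O f) : ComputableIn O fun a => (f a).factorial := by
  have h1 : Computable₂ fun (_ : ℕ) (p : ℕ × ℕ) => (p.1 + 1) * p.2 :=
    (Primrec.nat_mul.to_comp.comp
      (Primrec.nat_add.to_comp.comp (Computable.fst.comp Computable.snd) (Computable.const 1))
      (Computable.snd.comp Computable.snd)).to₂
  have h2 : Computable fct :=
    (Computable.nat_rec Computable.id (Computable.const 1) h1).of_eq fun a => rfl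
  have h3 := ci_compC h2 hf
  have h4 : (fun a => fct (f a)) = fun a => (f a).factorial := funext fun a => fct_eq (f a)
  rw [← h4]
  exact h3

theorem cpair {f g : α → ℕ} (hf : ComputableIn O f) (hg : ComputableIn O g) :
    ComputableIn O fun a => Nat.pair (f a) (g a) := ci_comp₂ Primrec₂.natPair.to_comp hf hg

theorem cunl {f : α → ℕ} (hf : ComputableIn O f) : ComputableIn O fun a => (Nat.unpair (f a)).1 :=
  ci_compC (f := fun n : ℕ => (Nat.unpair n).1) (Primrec.fst.comp Primrec.unpair).to_comp hf

theorem cunr {f : α → ℕ} (hf : ComputableIn O f) : ComputableIn O fun a => (Nat.unpair (f a)).2 :=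
  ci_compC (f := fun n : ℕ => (Nat.unpair n).2) (Primrec.snd.comp Primrec.unpair).to_comp hf

/-- indicator of a Boolean -/
def ind (b : Bool) : ℕ := bif b then 1 else 0

theorem cind {f : α → Bool} (hf : ComputableIn O f) : ComputableIn O fun a => ind (f a) :=
  ccond hf (cconst 1) (cconst 0)

end combinators

/-! ### Arithmetic helpers -/

theorem ind_true {b : Bool} (h : b = true) : ind b = 1 := by subst h; rfl

theorem ind_false {b : Bool} (h : b = false) : ind b = 0 := by subst h; rfl

theorem nsum_ind (n : ℕ) (q : ℕ → Bool) :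
    nsum n (fun k => ind (q k)) = ((Finset.range n).filter (fun k => q k = true)).card := by
  rw [nsum_eq, Finset.card_filter]
  refine Finset.sum_congr rfl fun k _ => ?_
  cases q k <;> simp [ind]

/-- integer logarithm -/
def lgb (b m : ℕ) : ℕ := nsum (m + 1) fun k => ind (decide (b ^ (k + 1) ≤ m))

theorem lgb_eq {b m k : ℕ} (hb : 2 ≤ b) (h1 : b ^ k ≤ m) (h2 : m < b ^ (k + 1)) :
    lgb b m = k := by
  unfold lgb
  rw [nsum_ind]
  have : (Finset.range (m + 1)).filter (fun l => decide (b ^ (l + 1) ≤ m) = true)
      = Finset.range k := by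
    ext l
    simp only [Finset.mem_filter, Finset.mem_range, decide_eq_true_eq]
    constructor
    · rintro ⟨-, h⟩
      by_contra hc
      have h3 : b ^ (k + 1) ≤ b ^ (l + 1) := Nat.pow_le_pow_right (by omega) (by omega)
      omega
    · intro h
      have h3 : b ^ (l + 1) ≤ b ^ k := Nat.pow_le_pow_right (by omega) (by omega)
      refine ⟨?_, by omega⟩
      have h4 : l + 1 < b ^ (l + 1) := Nat.lt_pow_self (by omega)
      omega
  rw [this, Finset.card_range]

theorem clgb {α : Type} [Primcodable α] {O : Set (ℕ →. ℕ)} (b : ℕ) {f : α → ℕ}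
    (hf : ComputableIn O f) : ComputableIn O fun a => lgb b (f a) := by
  refine nsum_comp (cadd hf (cconst 1)) ?_
  exact cind (cle (cpw b (cadd ci_snd (cconst 1))) (ci_comp hf ci_fst))


end Pool.Agent.Helper67.BN
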