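import Mathlib
import Pool.Agent.Helper67.BN.Tools

set_option autoImplicit false

namespace Pool.Agent.Helper67.BN

/-- one step of the recursion for `(b, G, W)` -/
def stp (k : ℕ) (p : ℕ × ℕ × ℕ) : ℕ × ℕ × ℕ :=
  (2 ^ (2 * (2 * p.2.1 * 2 ^ (k * 2 ^ p.2.2) + p.2.2 + k + 1) + 1),
   p.2.1 * (2 * 2 ^ (2 * (2 * p.2.1 * 2 ^ (k * 2 ^ p.2.2) + p.2.2 + k + 1) + 1)
      * 2 ^ (k * 2 ^ p.2.2)),
   p.2.2 + p.2.1 * (2 * 2 ^ (2 * (2 * p.2.1 * 2 ^ (k * 2 ^ p.2.2) + p.2.2 + k + 1) + 1)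
      * 2 ^ (k * 2 ^ p.2.2)))

def st (k : ℕ) : ℕ × ℕ × ℕ :=
  Nat.rec (motive := fun _ => ℕ × ℕ × ℕ) (2, 1, 1) (fun k p => stp k p) k

/-- end of the `k`-th block -/
def bb (k : ℕ) : ℕ := (st k).1
/-- number of nodes of level `k` -/
def GG (k : ℕ) : ℕ := (st k).2.1
/-- number of nodes of level `≤ k` -/
def WW (k : ℕ) : ℕ := (st k).2.2
/-- number of successors of a node of level `k` -/
def NN (k : ℕ) : ℕ := 2 * bb (k + 1) * 2 ^ (k * 2 ^ WW k)
/-- bound for the number of successors hit by one function -/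
def HH (k : ℕ) : ℕ := bb (k + 1) + 2 * (NN k / 2 ^ (bb k).factorial)

theorem bb_zero : bb 0 = 2 := rfl
theorem GG_zero : GG 0 = 1 := rfl
theorem WW_zero : WW 0 = 1 := rfl

theorem bb_succ (k : ℕ) :
    bb (k + 1) = 2 ^ (2 * (2 * GG k * 2 ^ (k * 2 ^ WW k) + WW k + k + 1) + 1) := rfl

theorem GG_succ (k : ℕ) : GG (k + 1) = GG k * NN k := rfl

theorem WW_succ (k : ℕ) : WW (k + 1) = WW k + GG (k + 1) := rfl

theorem GG_pos (k : ℕ) : 0 < GG k := by
  induction k with
  | zero => simp [GG_zero]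
  | succ k ih =>
    rw [GG_succ]
    refine Nat.mul_pos ih ?_
    unfold NN
    rw [bb_succ]
    positivity

theorem bb_pos (k : ℕ) : 0 < bb k := by
  cases k with
  | zero => simp [bb_zero]
  | succ k => rw [bb_succ]; positivity

theorem NN_pos (k : ℕ) : 0 < NN k := by
  unfold NN
  have := bb_pos (k + 1)
  positivity

theorem HH_pos (k : ℕ) : 0 < HH k := by
  unfold HH
  have := bb_pos (k + 1)
  omega

theorem pow_self_le_factorial (h : ℕ) : h ^ h ≤ (2 * h).factorial := by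
  have h1 : h.factorial * (h + 1) ^ h ≤ (h + h).factorial := Nat.factorial_mul_pow_le_factorial
  have h2 : h ^ h ≤ (h + 1) ^ h := Nat.pow_le_pow_left (by omega) _
  have h3 : (h + 1) ^ h ≤ h.factorial * (h + 1) ^ h :=
    Nat.le_mul_of_pos_left _ (Nat.factorial_pos h)
  calc h ^ h ≤ (h + 1) ^ h := h2
    _ ≤ h.factorial * (h + 1) ^ h := h3
    _ ≤ (h + h).factorial := h1
    _ = (2 * h).factorial := by rw [two_mul]

theorem step_ineq (k c W : ℕ) :
    (k + 1) * 2 ^ (W + c * 2 ^ (2 * (c + W + k + 1) + 1)) + 2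
      ≤ (2 ^ (2 * (c + W + k + 1) + 1)).factorial := by
  set e := c + W + k + 1 with he
  have h0 : 2 ^ (2 * e + 1) = 2 * 2 ^ (2 * e) := by rw [pow_succ]; ring
  set h := 2 ^ (2 * e) with hh
  have h1 : h ^ h ≤ (2 * h).factorial := pow_self_le_factorial h
  rw [h0]
  refine le_trans ?_ h1
  have h2 : h ^ h = 2 ^ (2 * e * h) := by
    conv_lhs => rw [hh]
    rw [← pow_mul]
  rw [h2]
  have hpos : 1 ≤ h := Nat.one_le_two_pow
  have h3 : k + 1 ≤ 2 ^ k := Nat.lt_two_pow_self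
  have h4 : 2 * e * h = c * (2 * h) + (W + k + 1) * (2 * h) := by rw [he]; ring
  have h5 : W + k + 1 + (W + k + 1) ≤ (W + k + 1) * (2 * h) := by nlinarith
  have h6 : (2:ℕ) ≤ 2 ^ (W + c * (2 * h) + k + 1) := by
    calc (2:ℕ) = 2 ^ 1 := rfl
      _ ≤ _ := Nat.pow_le_pow_right (by norm_num) (by omega)
  calc (k + 1) * 2 ^ (W + c * (2 * h)) + 2
      ≤ 2 ^ k * 2 ^ (W + c * (2 * h)) + 2 := by gcongr
    _ = 2 ^ (W + c * (2 * h) + k) + 2 := by rw [← pow_add]; ring_nf
    _ ≤ 2 ^ (W + c * (2 * h) + k + 1) + 2 ^ (W + c * (2 * h) + k + 1) := by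
        have : 2 ^ (W + c * (2 * h) + k) ≤ 2 ^ (W + c * (2 * h) + k + 1) :=
          Nat.pow_le_pow_right (by norm_num) (by omega)
        omega
    _ = 2 ^ (W + c * (2 * h) + k + 2) := by rw [pow_succ 2 (W + c * (2 * h) + k + 1)]; ring
    _ ≤ 2 ^ (2 * e * h) := by
        apply Nat.pow_le_pow_right (by norm_num)
        rw [h4]
        omega

theorem WW_succ' (k : ℕ) :
    WW (k + 1) = WW k + (2 * GG k * 2 ^ (k * 2 ^ WW k)) * bb (k + 1) := by
  rw [WW_succ, GG_succ]
  unfold NN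
  ring

theorem fact_bound (k : ℕ) : k * 2 ^ WW k + 2 ≤ (bb k).factorial := by
  cases k with
  | zero => simp [bb_zero]
  | succ k =>
    rw [WW_succ', bb_succ]
    exact step_ineq k (2 * GG k * 2 ^ (k * 2 ^ WW k)) (WW k)

theorem HH_mul_le (k : ℕ) : HH k * 2 ^ (k * 2 ^ WW k) ≤ NN k := by
  have h1 := fact_bound k
  set e := k * 2 ^ WW k with he
  have hN : NN k = 2 * bb (k + 1) * 2 ^ e := rfl
  have h2 : 2 * (NN k / 2 ^ (bb k).factorial) * 2 ^ e ≤ bb (k + 1) * 2 ^ e := by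
    have h3 : NN k / 2 ^ (bb k).factorial ≤ NN k / 2 ^ (e + 2) :=
      Nat.div_le_div_left (Nat.pow_le_pow_right (by norm_num) h1) (by positivity)
    have h4 : NN k / 2 ^ (e + 2) * 2 ^ (e + 2) ≤ NN k := Nat.div_mul_le_self _ _
    have h5 : 4 * (NN k / 2 ^ (e + 2) * 2 ^ e) ≤ 2 * bb (k + 1) * 2 ^ e := by
      rw [← hN]
      calc 4 * (NN k / 2 ^ (e + 2) * 2 ^ e) = NN k / 2 ^ (e + 2) * 2 ^ (e + 2) := by
            rw [pow_add]; ring
        _ ≤ NN k := h4
    have h6 : NN k / 2 ^ (bb k).factorial * 2 ^ e ≤ NN k / 2 ^ (e + 2) * 2 ^ e :=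
      Nat.mul_le_mul_right _ h3
    nlinarith
  calc HH k * 2 ^ e = bb (k + 1) * 2 ^ e + 2 * (NN k / 2 ^ (bb k).factorial) * 2 ^ e := by
        unfold HH; ring
    _ ≤ bb (k + 1) * 2 ^ e + bb (k + 1) * 2 ^ e := by gcongr
    _ = NN k := by rw [hN]; ring

theorem bb_lt_succ (k : ℕ) : bb k < bb (k + 1) := by
  have h1 : ∀ k, bb k ≤ 2 * GG k + 1 := by
    intro k
    cases k with
    | zero => simp [bb_zero, GG_zero]
    | succ k =>
      rw [GG_succ]
      unfold NN
      have := GG_pos k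
      have h2 : 1 ≤ 2 ^ (k * 2 ^ WW k) := Nat.one_le_two_pow
      have h3 : bb (k + 1) ≤ GG k * (2 * bb (k + 1) * 2 ^ (k * 2 ^ WW k)) := by
        calc bb (k + 1) = 1 * (1 * bb (k + 1) * 1) := by ring
          _ ≤ GG k * (2 * bb (k + 1) * 2 ^ (k * 2 ^ WW k)) := by gcongr <;> omega
      omega
  have h2 := h1 k
  rw [bb_succ]
  have h3 : 1 ≤ 2 ^ (k * 2 ^ WW k) := Nat.one_le_two_pow
  have h4 : GG k ≤ GG k * 2 ^ (k * 2 ^ WW k) := Nat.le_mul_of_pos_right _ (by omega)
  have h5 : 2 * GG k + 1 < 2 ^ (2 * GG k + 1) := Nat.lt_two_pow_self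
  have h6 : 2 ^ (2 * GG k + 1) ≤ 2 ^ (2 * (2 * GG k * 2 ^ (k * 2 ^ WW k) + WW k + k + 1) + 1) := by
    apply Nat.pow_le_pow_right (by norm_num)
    nlinarith
  omega

theorem bb_strictMono : StrictMono bb := strictMono_nat_of_lt_succ bb_lt_succ

theorem WW_lt_succ (k : ℕ) : WW k < WW (k + 1) := by
  rw [WW_succ]
  have := GG_pos (k + 1)
  omega

theorem WW_strictMono : StrictMono WW := strictMono_nat_of_lt_succ WW_lt_succ

theorem lt_WW (k : ℕ) : k < WW k := by
  induction k with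
  | zero => simp [WW_zero]
  | succ k ih => have := WW_lt_succ k; omega

/-! ### Computability -/

theorem cst {O : Set (ℕ →. ℕ)} : ComputableIn O st := by
  have hpow : ComputableIn₂ O fun (_ : ℕ) (q : ℕ × ℕ × ℕ × ℕ) => stp q.1 q.2 := by
    have hk : ComputableIn O fun a : ℕ × ℕ × ℕ × ℕ × ℕ => a.2.1 := ci_comp ci_fst ci_snd
    have hG : ComputableIn O fun a : ℕ × ℕ × ℕ × ℕ × ℕ => a.2.2.2.1 :=
      ci_comp ci_fst (ci_comp ci_snd (ci_comp ci_snd ci_snd))
    have hW : ComputableIn O fun a : ℕ × ℕ × ℕ × ℕ × ℕ => a.2.2.2.2 :=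
      ci_comp ci_snd (ci_comp ci_snd (ci_comp ci_snd ci_snd))
    have hQ := cpw 2 (cmul hk (cpw 2 hW))
    have hb := cpw 2 (cadd (cmul (cconst 2)
      (cadd (cadd (cadd (cmul (cmul (cconst 2) hG) hQ) hW) hk) (cconst 1))) (cconst 1))
    have hN := cmul hG (cmul (cmul (cconst 2) hb) hQ)
    exact ci_pair hb (ci_pair hN (cadd hW hN))
  exact ci_nat_rec (f := fun k : ℕ => k) (g := fun _ => ((2, 1, 1) : ℕ × ℕ × ℕ))
    (h := fun _ q => stp q.1 q.2) ComputableIn.id (cconst _) hpow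

section
variable {α : Type} [Primcodable α] {O : Set (ℕ →. ℕ)}

theorem cbb {f : α → ℕ} (hf : ComputableIn O f) : ComputableIn O fun a => bb (f a) :=
  ci_comp (f := fun p : ℕ × ℕ × ℕ => p.1) (g := fun a => st (f a)) ci_fst
    (ci_comp (f := st) (g := f) cst hf)

theorem cGG {f : α → ℕ} (hf : ComputableIn O f) : ComputableIn O fun a => GG (f a) :=
  ci_comp (f := fun p : ℕ × ℕ × ℕ => p.2.1) (g := fun a => st (f a)) (ci_comp ci_fst ci_snd)
    (ci_comp (f := st) (g := f) cst hf)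

theorem cWW {f : α → ℕ} (hf : ComputableIn O f) : ComputableIn O fun a => WW (f a) :=
  ci_comp (f := fun p : ℕ × ℕ × ℕ => p.2.2) (g := fun a => st (f a)) (ci_comp ci_snd ci_snd)
    (ci_comp (f := st) (g := f) cst hf)

theorem cNN {f : α → ℕ} (hf : ComputableIn O f) : ComputableIn O fun a => NN (f a) :=
  cmul (cmul (cconst 2) (cbb (cadd hf (cconst 1)))) (cpw 2 (cmul hf (cpw 2 (cWW hf))))

theorem cHH {f : α → ℕ} (hf : ComputableIn O f) : ComputableIn O fun a => HH (f a) :=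
  cadd (cbb (cadd hf (cconst 1)))
    (cmul (cconst 2) (cdiv (cNN hf) (cpw 2 (cfct (cbb hf)))))

end

/-! ### Hits -/

/-- The function `x` hits the successor `j` of a node of level `k`. -/
def Hit (x : ℕ → ℕ) (k j : ℕ) : Prop := ∃ i, bb k ≤ i ∧ i < bb (k + 1) ∧ x i = j % 2 ^ i.factorial

theorem card_mod_le (N q v : ℕ) :
    ((Finset.range N).filter fun j => v = j % q).card ≤ N / q + 1 := by
  have h1 : ((Finset.range N).filter fun j => v = j % q) ⊆
      (Finset.range (N / q + 1)).image (fun t => v + q * t) := by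
    intro j hj
    simp only [Finset.mem_filter, Finset.mem_range] at hj
    simp only [Finset.mem_image, Finset.mem_range]
    refine ⟨j / q, ?_, ?_⟩
    · have := Nat.div_le_div_right (c := q) hj.1.le
      omega
    · rw [hj.2]; exact Nat.mod_add_div j q
  calc _ ≤ ((Finset.range (N / q + 1)).image (fun t => v + q * t)).card := Finset.card_le_card h1
    _ ≤ (Finset.range (N / q + 1)).card := Finset.card_image_le
    _ = N / q + 1 := Finset.card_range _

theorem add_le_factorial (b t : ℕ) (hb : 1 ≤ b) : b.factorial + t ≤ (b + t).factorial := by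
  induction t with
  | zero => simp
  | succ t ih =>
    have h1 : (b + (t + 1)).factorial = (b + t + 1) * (b + t).factorial := by
      rw [← Nat.factorial_succ]; rfl
    rw [h1]
    have h2 : 1 ≤ (b + t).factorial := Nat.factorial_pos _
    nlinarith

open Classical in
theorem card_hit_le (x : ℕ → ℕ) (k : ℕ) :
    ((Finset.range (NN k)).filter fun j => Hit x k j).card ≤ HH k := by
  set T := bb (k + 1) - bb k with hT
  have hb := bb_lt_succ k
  have h1 : ((Finset.range (NN k)).filter fun j => Hit x k j) ⊆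
      (Finset.range T).biUnion (fun t =>
        (Finset.range (NN k)).filter fun j => x (bb k + t) = j % 2 ^ (bb k + t).factorial) := by
    intro j hj
    simp only [Finset.mem_filter, Finset.mem_range] at hj
    obtain ⟨hj1, i, hi1, hi2, hi3⟩ := hj
    simp only [Finset.mem_biUnion, Finset.mem_filter, Finset.mem_range]
    refine ⟨i - bb k, by omega, hj1, ?_⟩
    have : bb k + (i - bb k) = i := by omega
    rw [this]; exact hi3
  have hbp := bb_pos k
  calc _ ≤ ((Finset.range T).biUnion (fun t =>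
        (Finset.range (NN k)).filter fun j => x (bb k + t) = j % 2 ^ (bb k + t).factorial)).card :=
        Finset.card_le_card h1
    _ ≤ ∑ t ∈ Finset.range T, ((Finset.range (NN k)).filter fun j =>
          x (bb k + t) = j % 2 ^ (bb k + t).factorial).card := Finset.card_biUnion_le
    _ ≤ ∑ t ∈ Finset.range T, ((NN k / 2 ^ (bb k).factorial) / 2 ^ t + 1) := by
        refine Finset.sum_le_sum fun t _ => ?_
        refine (card_mod_le _ _ _).trans ?_
        have h2 : NN k / 2 ^ (bb k + t).factorial ≤ NN k / 2 ^ ((bb k).factorial + t) :=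
          Nat.div_le_div_left (Nat.pow_le_pow_right (by norm_num) (add_le_factorial _ _ hbp))
            (by positivity)
        rw [pow_add, ← Nat.div_div_eq_div_mul] at h2
        omega
    _ = ∑ t ∈ Finset.range T, ((NN k / 2 ^ (bb k).factorial) / 2 ^ t) + T := by
        rw [Finset.sum_add_distrib]; simp
    _ ≤ (NN k / 2 ^ (bb k).factorial) * 2 / (2 - 1) + T := by
        gcongr
        exact Nat.geom_sum_le (le_refl 2) _ _
    _ ≤ HH k := by
        unfold HH
        have : (NN k / 2 ^ (bb k).factorial) * 2 / (2 - 1)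
          = 2 * (NN k / 2 ^ (bb k).factorial) := by simp [mul_comm]
        omega

end Pool.Agent.Helper67.BN
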