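import Mathlib
import Pool.Agent.Helper67.BN.Seqs

set_option autoImplicit false

namespace Pool.Agent.Helper67.BN

/-- `σ` is a node of the tree `T = ∏ [0, NN k)`. -/
def InT (σ : List ℕ) : Prop := ∀ (i : ℕ) (h : i < σ.length), σ[i] < NN i

theorem InT.nil : InT [] := fun i h => absurd h (by simp)

theorem InT.append {σ : List ℕ} (hσ : InT σ) {j : ℕ} (hj : j < NN σ.length) :
    InT (σ ++ [j]) := by
  intro i h
  rw [List.length_append, List.length_singleton] at h
  by_cases hi : i < σ.length
  · rw [List.getElem_append_left hi]; exact hσ i hi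
  · have : i = σ.length := by omega
    subst this
    simpa using hj

theorem InT.of_prefix {σ τ : List ℕ} (h : σ <+: τ) (hτ : InT τ) : InT σ := by
  intro i hi
  have h1 := h.getElem hi
  rw [h1]
  exact hτ i (lt_of_lt_of_le hi h.length_le)

/-- `D` is `r`-big above `σ`. -/
inductive Big (r : ℕ → ℕ) (D : List ℕ → Prop) : List ℕ → Prop
  | leaf (σ : List ℕ) : D σ → Big r D σ
  | node (σ : List ℕ) (S : Finset ℕ) : (∀ j ∈ S, j < NN σ.length) → r σ.length ≤ S.card →
      (∀ j ∈ S, Big r D (σ ++ [j])) → Big r D σ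

theorem Big.anti {r r' : ℕ → ℕ} {D D' : List ℕ → Prop} {σ : List ℕ} (h : Big r D σ)
    (hD : ∀ τ, σ <+: τ → D τ → D' τ) (hr : ∀ k, σ.length ≤ k → r' k ≤ r k) : Big r' D' σ := by
  induction h with
  | leaf σ h => exact .leaf σ (hD σ (List.prefix_refl _) h)
  | node σ S h1 h2 h3 ih =>
    refine .node σ S h1 ((hr _ le_rfl).trans h2) fun j hj => ih j hj ?_ ?_
    · intro τ hτ hh
      exact hD τ ((List.prefix_append _ _).trans hτ) hh
    · intro k hk
      rw [List.length_append, List.length_singleton] at hk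
      exact hr k (by omega)

theorem Big.concat {r : ℕ → ℕ} {D E : List ℕ → Prop} {σ : List ℕ} (h : Big r D σ)
    (hE : ∀ τ, σ <+: τ → (InT σ → InT τ) → D τ → Big r E τ) : Big r E σ := by
  induction h with
  | leaf σ h => exact hE σ (List.prefix_refl _) id h
  | node σ S h1 h2 h3 ih =>
    refine .node σ S h1 h2 fun j hj => ih j hj ?_
    intro τ hτ hi hD
    refine hE τ ((List.prefix_append _ _).trans hτ) (fun hσ => hi (hσ.append (h1 j hj))) hD

/-- pigeonhole for bigness -/
theorem Big.color {r : ℕ → ℕ} {c : ℕ} {D : ℕ → List ℕ → Prop} {σ : List ℕ}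
    (hc : 0 < c) (h : Big (fun k => c * r k) (fun τ => ∃ v < c, D v τ) σ) :
    ∃ v < c, Big r (D v) σ := by
  induction h with
  | leaf σ h =>
    obtain ⟨v, hv, h⟩ := h
    exact ⟨v, hv, .leaf σ h⟩
  | node σ S h1 h2 h3 ih =>
    choose! f hf using ih
    have hm : ∀ j ∈ S, f j ∈ Finset.range c := fun j hj => Finset.mem_range.2 (hf j hj).1
    have hne : (Finset.range c).Nonempty := ⟨0, Finset.mem_range.2 hc⟩
    obtain ⟨v, hv, h5⟩ := Finset.exists_le_card_fiber_of_mul_le_card_of_maps_to hm hne
      (n := r σ.length) (by rw [Finset.card_range]; exact h2)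
    refine ⟨v, Finset.mem_range.1 hv, .node σ (S.filter fun j => f j = v) ?_ h5 ?_⟩
    · intro j hj
      exact h1 j (Finset.mem_filter.1 hj).1
    · intro j hj
      obtain ⟨hj1, hj2⟩ := Finset.mem_filter.1 hj
      have := (hf j hj1).2
      rw [hj2] at this
      exact this

/-- `τ` is hit by `x` at some level `≥ k₀` -/
def HitAbove (x : ℕ → ℕ) (k₀ : ℕ) (τ : List ℕ) : Prop :=
  ∃ k, k₀ ≤ k ∧ ∃ h : k < τ.length, Hit x k τ[k]

theorem HitAbove.mono {x : ℕ → ℕ} {k₀ : ℕ} {σ τ : List ℕ} (h : σ <+: τ)
    (hσ : HitAbove x k₀ σ) : HitAbove x k₀ τ := by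
  obtain ⟨k, hk, hl, hh⟩ := hσ
  refine ⟨k, hk, lt_of_lt_of_le hl h.length_le, ?_⟩
  rw [← h.getElem hl]; exact hh

theorem big_hit {r : ℕ → ℕ} {B : List ℕ → Prop} {x : ℕ → ℕ} {k₀ : ℕ} {σ : List ℕ}
    (h : Big (fun k => r k + HH k) (fun τ => B τ ∨ HitAbove x k₀ τ) σ) (hk : k₀ ≤ σ.length)
    (hσ : ¬ HitAbove x k₀ σ) : Big r B σ := by
  classical
  induction h with
  | leaf σ h =>
    rcases h with h | h
    · exact .leaf σ h
    · exact absurd h hσ
  | node σ S h1 h2 h3 ih =>
    refine .node σ (S.filter fun j => ¬ Hit x σ.length j) ?_ ?_ ?_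
    · intro j hj
      exact h1 j (Finset.mem_filter.1 hj).1
    · have h4 := Finset.card_filter_add_card_filter_not (s := S) (fun j => Hit x σ.length j)
      have h5 : (S.filter fun j => Hit x σ.length j).card ≤ HH σ.length := by
        refine le_trans (Finset.card_le_card ?_) (card_hit_le x σ.length)
        intro j hj
        obtain ⟨hj1, hj2⟩ := Finset.mem_filter.1 hj
        exact Finset.mem_filter.2 ⟨Finset.mem_range.2 (h1 j hj1), hj2⟩
      omega
    · intro j hj
      obtain ⟨hj1, hj2⟩ := Finset.mem_filter.1 hj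
      refine ih j hj1 (by rw [List.length_append]; omega) ?_
      rintro ⟨k, hk1, hk2, hk3⟩
      rw [List.length_append, List.length_singleton] at hk2
      by_cases hi : k < σ.length
      · rw [List.getElem_append_left hi] at hk3
        exact hσ ⟨k, hk1, hi, hk3⟩
      · have : k = σ.length := by omega
        subst this
        simp at hk3
        exact hj2 hk3

/-! ### The index of a node -/

/-- mixed radix value of the entries starting with position `i` -/
def rk (τ : List ℕ) : ℕ := nsum τ.length fun i => GG i * τ.getD i 0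

def off (k : ℕ) : ℕ := WW k - GG k

/-- the index of a node -/
def mm (τ : List ℕ) : ℕ := off τ.length + rk τ

theorem nsum_succ (n : ℕ) (q : ℕ → ℕ) : nsum (n + 1) q = nsum n q + q n := rfl

theorem nsum_congr (n : ℕ) (q q' : ℕ → ℕ) (h : ∀ k < n, q k = q' k) : nsum n q = nsum n q' := by
  rw [nsum_eq, nsum_eq]
  exact Finset.sum_congr rfl fun k hk => h k (Finset.mem_range.1 hk)

theorem rk_append (τ : List ℕ) (j : ℕ) : rk (τ ++ [j]) = rk τ + GG τ.length * j := by
  unfold rk
  rw [List.length_append, List.length_singleton, nsum_succ]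
  congr 1
  · apply nsum_congr
    intro k hk
    rw [List.getD_append _ _ _ _ hk]
  · simp

theorem rk_lt {τ : List ℕ} (h : InT τ) : rk τ < GG τ.length := by
  induction τ using List.reverseRecOn with
  | nil => simp [rk, nsum, GG_zero]
  | append_singleton τ j ih =>
    have h1 : InT τ := h.of_prefix (List.prefix_append _ _)
    have h2 : j < NN τ.length := by
      have := h τ.length (by simp)
      simpa using this
    rw [rk_append, List.length_append, List.length_singleton, GG_succ]
    have := ih h1
    calc rk τ + GG τ.length * j < GG τ.length + GG τ.length * j := by omega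
      _ = GG τ.length * (j + 1) := by ring
      _ ≤ GG τ.length * NN τ.length := Nat.mul_le_mul_left _ h2

theorem rk_inj {σ τ : List ℕ} (hσ : InT σ) (hτ : InT τ) (hl : σ.length = τ.length)
    (h : rk σ = rk τ) : σ = τ := by
  induction σ using List.reverseRecOn generalizing τ with
  | nil => simp at hl; exact (List.length_eq_zero_iff.1 hl.symm).symm
  | append_singleton σ j ih =>
    rcases List.eq_nil_or_concat τ with h0 | ⟨τ', j', rfl⟩
    · subst h0; simp at hl
    · rw [List.concat_eq_append] at *
      have hl' : σ.length = τ'.length := by simpa using hl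
      have h1 : InT σ := hσ.of_prefix (List.prefix_append _ _)
      have h2 : InT τ' := hτ.of_prefix (List.prefix_append _ _)
      rw [rk_append, rk_append, ← hl'] at h
      have h3 := rk_lt h1
      have h4 := rk_lt h2
      rw [← hl'] at h4
      have h5 : rk σ = rk τ' := by
        have := congrArg (· % GG σ.length) h
        simpa [Nat.add_mul_mod_self_left, Nat.mod_eq_of_lt h3, Nat.mod_eq_of_lt h4] using this
      have h6 : j = j' := by
        rw [h5] at h
        have := Nat.add_left_cancel h
        exact Nat.eq_of_mul_eq_mul_left (GG_pos _) this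
      rw [ih h1 h2 hl' h5, h6]

theorem exists_rk (k r : ℕ) (hr : r < GG k) : ∃ τ, InT τ ∧ τ.length = k ∧ rk τ = r := by
  induction k generalizing r with
  | zero =>
    rw [GG_zero] at hr
    exact ⟨[], InT.nil, rfl, by simp [rk, nsum]; omega⟩
  | succ k ih =>
    rw [GG_succ] at hr
    have hG := GG_pos k
    obtain ⟨τ, h1, h2, h3⟩ := ih (r % GG k) (Nat.mod_lt _ hG)
    have h4 : r / GG k < NN k := Nat.div_lt_of_lt_mul hr
    refine ⟨τ ++ [r / GG k], h1.append (by rw [h2]; exact h4), by simp [h2], ?_⟩
    rw [rk_append, h3, h2]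
    exact Nat.mod_add_div r (GG k)

theorem off_succ (k : ℕ) : off (k + 1) = WW k := by
  unfold off
  rw [WW_succ]; omega

theorem off_add (k : ℕ) : off k + GG k = WW k := by
  cases k with
  | zero => rfl
  | succ k => rw [off_succ, WW_succ]

theorem le_off (k : ℕ) : k ≤ off k := by
  cases k with
  | zero => simp
  | succ k => rw [off_succ]; exact lt_WW k

theorem mm_lt {τ : List ℕ} (h : InT τ) : mm τ < WW τ.length := by
  unfold mm
  have := rk_lt h
  have := off_add τ.length
  omega

theorem le_mm (τ : List ℕ) : τ.length ≤ mm τ := by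
  unfold mm
  have := le_off τ.length
  omega

theorem off_le_mm (τ : List ℕ) : off τ.length ≤ mm τ := by unfold mm; omega

theorem mm_inj {σ τ : List ℕ} (hσ : InT σ) (hτ : InT τ) (h : mm σ = mm τ) : σ = τ := by
  have key : ∀ {σ τ : List ℕ}, InT σ → InT τ → mm σ = mm τ → ¬ σ.length < τ.length := by
    intro σ τ hσ _ h hl
    have h1 := mm_lt hσ
    have h2 := off_le_mm τ
    have h3 : WW σ.length ≤ off τ.length := by
      rw [← off_succ]
      obtain ⟨d, hd⟩ := Nat.exists_eq_add_of_lt hl
      rw [hd, off_succ, off_succ]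
      exact WW_strictMono.monotone (by omega)
    omega
  have hl : σ.length = τ.length := by
    have h1 := key hσ hτ h
    have h2 := key hτ hσ h.symm
    omega
  refine rk_inj hσ hτ hl ?_
  unfold mm at h
  rw [hl] at h
  omega

theorem exists_mm (m : ℕ) : ∃ τ, InT τ ∧ mm τ = m := by
  have hex : ∃ k, m < WW k := ⟨m, lt_WW m⟩
  classical
  set k := Nat.find hex with hk
  have h1 : m < WW k := Nat.find_spec hex
  have h2 : off k ≤ m := by
    rcases Nat.eq_zero_or_pos k with h0 | h0
    · rw [h0]; simp [off, WW_zero, GG_zero]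
    · obtain ⟨l, hl⟩ := Nat.exists_eq_add_of_lt h0
      have h3 : ¬ m < WW (k - 1) := Nat.find_min hex (by omega)
      have h4 : k = (k - 1) + 1 := by omega
      rw [h4, off_succ]
      omega
  have h3 := off_add k
  obtain ⟨τ, h4, h5, h6⟩ := exists_rk k (m - off k) (by omega)
  refine ⟨τ, h4, ?_⟩
  unfold mm
  rw [h5, h6]; omega

end Pool.Agent.Helper67.BN
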