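import Mathlib
import Pool.Agent.Helper67.BN.Big

set_option autoImplicit false

namespace Pool.Agent.Helper67.BN

/-- bounded existential quantifier -/
def bex (n : ℕ) (q : ℕ → Bool) : Bool := !(ball n fun k => !(q k))

theorem bex_iff (n : ℕ) (q : ℕ → Bool) : bex n q = true ↔ ∃ k < n, q k = true := by
  unfold bex
  rw [Bool.not_eq_true', ← Bool.not_eq_true, ball_iff]
  push Not
  simp

theorem bex_comp {α : Type} [Primcodable α] {O : Set (ℕ →. ℕ)} {g : α → ℕ} {q : α → ℕ → Bool}
    (hg : ComputableIn O g) (hq : ComputableIn₂ O q) :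
    ComputableIn O fun a => bex (g a) (q a) :=
  cnot (ball_comp hg (q := fun a k => !(q a k)) (cnot hq))

def memb (τ : List ℕ) (L : List (List ℕ)) : Bool :=
  bex L.length fun i => decide (L.getD i [] = τ)

theorem memb_iff (τ : List ℕ) (L : List (List ℕ)) : memb τ L = true ↔ τ ∈ L := by
  unfold memb
  rw [bex_iff]
  constructor
  · rintro ⟨i, hi, h⟩
    rw [decide_eq_true_eq, List.getD_eq_getElem _ _ hi] at h
    rw [← h]; exact List.getElem_mem hi
  · intro h
    obtain ⟨i, hi, h⟩ := List.getElem_of_mem h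
    refine ⟨i, hi, ?_⟩
    rw [decide_eq_true_eq, List.getD_eq_getElem _ _ hi]; exact h

def cert (r : ℕ → ℕ) (e : List ℕ → ℕ → Bool) (τ : List ℕ) (w : ℕ) (L : List (List ℕ)) : Bool :=
  memb τ L && ball L.length fun i =>
    (bex w (e (L.getD i []))) ||
      decide (r (L.getD i []).length ≤ nsum (NN (L.getD i []).length)
        fun j => ind (memb (L.getD i [] ++ [j]) L))

def Cert (r : ℕ → ℕ) (e : List ℕ → ℕ → Bool) (τ : List ℕ) (w : ℕ) (L : List (List ℕ)) : Prop :=
  τ ∈ L ∧ ∀ ρ ∈ L, (∃ u < w, e ρ u = true) ∨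
    r ρ.length ≤ ((Finset.range (NN ρ.length)).filter fun j => ρ ++ [j] ∈ L).card

theorem cert_iff (r : ℕ → ℕ) (e : List ℕ → ℕ → Bool) (τ : List ℕ) (w : ℕ) (L : List (List ℕ)) :
    cert r e τ w L = true ↔ Cert r e τ w L := by
  unfold cert Cert
  rw [Bool.and_eq_true, memb_iff, ball_iff]
  refine and_congr_right fun _ => ?_
  have h1 : ∀ ρ : List ℕ, ((bex w (e ρ)) || decide (r ρ.length ≤ nsum (NN ρ.length)
        fun j => ind (memb (ρ ++ [j]) L))) = true ↔ ((∃ u < w, e ρ u = true) ∨
    r ρ.length ≤ ((Finset.range (NN ρ.length)).filter fun j => ρ ++ [j] ∈ L).card) := by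
    intro ρ
    rw [Bool.or_eq_true, bex_iff, decide_eq_true_eq, nsum_ind]
    simp only [memb_iff]
  constructor
  · intro h ρ hρ
    obtain ⟨i, hi, hh⟩ := List.getElem_of_mem hρ
    have := h i hi
    rw [List.getD_eq_getElem _ _ hi, hh] at this
    exact (h1 ρ).1 this
  · intro h i hi
    rw [List.getD_eq_getElem _ _ hi]
    exact (h1 _).2 (h _ (List.getElem_mem hi))

theorem Cert.big {r : ℕ → ℕ} {e : List ℕ → ℕ → Bool} {τ : List ℕ} {w : ℕ} {L : List (List ℕ)}
    (h : Cert r e τ w L) : Big r (fun ρ => ∃ u, e ρ u = true) τ := by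
  obtain ⟨h1, h2⟩ := h
  obtain ⟨K, hK⟩ : ∃ K, ∀ ρ ∈ L, ρ.length ≤ K := by
    refine ⟨(L.map List.length).sum, fun ρ hρ => ?_⟩
    exact List.single_le_sum (by simp) _ (List.mem_map.2 ⟨ρ, hρ, rfl⟩)
  have key : ∀ n, ∀ ρ ∈ L, K - ρ.length ≤ n → Big r (fun ρ => ∃ u, e ρ u = true) ρ := by
    intro n
    induction n with
    | zero =>
      intro ρ hρ hn
      rcases h2 ρ hρ with ⟨u, _, hu⟩ | h3
      · exact .leaf ρ ⟨u, hu⟩
      · refine .node ρ _ ?_ h3 ?_
        · intro j hj
          exact Finset.mem_range.1 (Finset.mem_filter.1 hj).1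
        · intro j hj
          have := hK _ (Finset.mem_filter.1 hj).2
          rw [List.length_append, List.length_singleton] at this
          omega
    | succ n ih =>
      intro ρ hρ hn
      rcases h2 ρ hρ with ⟨u, _, hu⟩ | h3
      · exact .leaf ρ ⟨u, hu⟩
      · refine .node ρ _ ?_ h3 ?_
        · intro j hj
          exact Finset.mem_range.1 (Finset.mem_filter.1 hj).1
        · intro j hj
          refine ih _ (Finset.mem_filter.1 hj).2 ?_
          rw [List.length_append, List.length_singleton]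
          omega
  exact key _ τ h1 le_rfl

theorem Big.cert {r : ℕ → ℕ} {e : List ℕ → ℕ → Bool} {τ : List ℕ}
    (h : Big r (fun ρ => ∃ u, e ρ u = true) τ) : ∃ w L, Cert r e τ w L := by
  induction h with
  | leaf σ h =>
    obtain ⟨u, hu⟩ := h
    refine ⟨u + 1, [σ], List.mem_singleton_self _, fun ρ hρ => Or.inl ⟨u, by omega, ?_⟩⟩
    rw [List.mem_singleton.1 hρ]; exact hu
  | node σ S h1 h2 h3 ih =>
    choose! w L hwL using ih
    refine ⟨S.sup w, σ :: S.toList.flatMap L, List.mem_cons_self, ?_⟩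
    intro ρ hρ
    rcases List.mem_cons.1 hρ with rfl | hρ
    · right
      refine h2.trans (Finset.card_le_card ?_)
      intro j hj
      refine Finset.mem_filter.2 ⟨Finset.mem_range.2 (h1 j hj), ?_⟩
      exact List.mem_cons_of_mem _ (List.mem_flatMap.2 ⟨j, Finset.mem_toList.2 hj, (hwL j hj).1⟩)
    · obtain ⟨j, hj, hρj⟩ := List.mem_flatMap.1 hρ
      rw [Finset.mem_toList] at hj
      rcases (hwL j hj).2 ρ hρj with ⟨u, hu, h4⟩ | h4
      · exact Or.inl ⟨u, lt_of_lt_of_le hu (Finset.le_sup hj), h4⟩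
      · right
        refine h4.trans (Finset.card_le_card ?_)
        intro i hi
        obtain ⟨hi1, hi2⟩ := Finset.mem_filter.1 hi
        refine Finset.mem_filter.2 ⟨hi1, ?_⟩
        exact List.mem_cons_of_mem _ (List.mem_flatMap.2 ⟨j, Finset.mem_toList.2 hj, hi2⟩)

section
variable {α : Type} [Primcodable α] {O : Set (ℕ →. ℕ)}

theorem ceq {β : Type} [Primcodable β] [DecidableEq β] {f g : α → β} (hf : ComputableIn O f)
    (hg : ComputableIn O g) : ComputableIn O fun a => decide (f a = g a) := by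
  have : Primrec₂ fun m n : β => decide (m = n) := Primrec.eq.decide
  exact ci_comp₂ this.to_comp hf hg

theorem clen {β : Type} [Primcodable β] {f : α → List β} (hf : ComputableIn O f) :
    ComputableIn O fun a => (f a).length := ci_compC Primrec.list_length.to_comp hf

theorem cgetD {β : Type} [Primcodable β] (d : β) {f : α → List β} {g : α → ℕ}
    (hf : ComputableIn O f) (hg : ComputableIn O g) :
    ComputableIn O fun a => (f a).getD (g a) d :=
  ci_comp₂ (f := fun (l : List β) (n : ℕ) => l.getD n d) (Primrec.list_getD d).to_comp hf hg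

theorem cappend1 {f : α → List ℕ} {g : α → ℕ}
    (hf : ComputableIn O f) (hg : ComputableIn O g) :
    ComputableIn O fun a => f a ++ [g a] := by
  have h1 : Primrec₂ fun (l : List ℕ) (a : ℕ) => l ++ [a] := Primrec.list_concat
  exact ci_comp₂ (f := fun (l : List ℕ) (a : ℕ) => l ++ [a]) h1.to_comp hf hg

theorem cmemb {f : α → List ℕ} {g : α → List (List ℕ)}
    (hf : ComputableIn O f) (hg : ComputableIn O g) :
    ComputableIn O fun a => memb (f a) (g a) := by
  unfold memb
  refine bex_comp (clen hg) ?_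
  exact ceq (cgetD [] (ci_comp hg ci_fst) ci_snd) (ci_comp hf ci_fst)

theorem ccert {r : ℕ → ℕ} (hr : ComputableIn O r) {e : α → List ℕ → ℕ → Bool}
    (he : ComputableIn O fun p : α × List ℕ × ℕ => e p.1 p.2.1 p.2.2)
    {τ : α → List ℕ} {w : α → ℕ} {L : α → List (List ℕ)} (hτ : ComputableIn O τ)
    (hw : ComputableIn O w) (hL : ComputableIn O L) :
    ComputableIn O fun a => cert r (e a) (τ a) (w a) (L a) := by
  unfold cert
  refine cand (cmemb hτ hL) (ball_comp (clen hL) ?_)
  have hρ : ComputableIn O fun p : α × ℕ => (L p.1).getD p.2 [] :=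
    cgetD [] (ci_comp hL ci_fst) ci_snd
  refine cor ?_ (cle (ci_comp (f := r) hr (clen hρ)) ?_)
  · refine bex_comp (ci_comp hw ci_fst) ?_
    exact ci_comp (f := fun p : α × List ℕ × ℕ => e p.1 p.2.1 p.2.2)
      (g := fun q : (α × ℕ) × ℕ => (q.1.1, (L q.1.1).getD q.1.2 [], q.2)) he
      (ci_pair (ci_comp ci_fst ci_fst) (ci_pair (ci_comp hρ ci_fst) ci_snd))
  · refine nsum_comp (cNN (clen hρ)) ?_
    refine cind (cmemb (cappend1 (ci_comp hρ ci_fst) ci_snd) ?_)
    exact ci_comp hL (ci_comp ci_fst ci_fst)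

end

end Pool.Agent.Helper67.BN
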