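import Mathlib
import Pool.Agent.Helper67.BN.Cert

set_option autoImplicit false

namespace Pool.Agent.Helper67.BN

open Nat.Partrec (Code)
open Nat.Partrec.Code
open Encodable

/-! ### More computability -/

section
variable {α : Type} [Primcodable α] {O : Set (ℕ →. ℕ)}

theorem ctake {β : Type} [Primcodable β] {f : α → ℕ} {g : α → List β}
    (hf : ComputableIn O f) (hg : ComputableIn O g) :
    ComputableIn O fun a => (g a).take (f a) := by
  have h1 : Primrec₂ fun (n : ℕ) (l : List β) => l.take n := Primrec.list_take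
  exact ci_comp₂ (f := fun (n : ℕ) (l : List β) => l.take n) h1.to_comp hf hg

theorem cmm {f : α → List ℕ} (hf : ComputableIn O f) : ComputableIn O fun a => mm (f a) := by
  unfold mm rk off
  refine cadd (csub (cWW (clen hf)) (cGG (clen hf))) (nsum_comp (clen hf) ?_)
  exact cmul (cGG ci_snd) (cgetD 0 (ci_comp hf ci_fst) ci_snd)

end

def inTb (τ : List ℕ) : Bool := ball τ.length fun i => decide (τ.getD i 0 < NN i)

theorem inTb_iff (τ : List ℕ) : inTb τ = true ↔ InT τ := by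
  unfold inTb InT
  rw [ball_iff]
  constructor
  · intro h i hi
    have := h i hi
    rwa [decide_eq_true_eq, List.getD_eq_getElem _ _ hi] at this
  · intro h i hi
    rw [decide_eq_true_eq, List.getD_eq_getElem _ _ hi]
    exact h i hi

theorem cinTb {α : Type} [Primcodable α] {O : Set (ℕ →. ℕ)} {f : α → List ℕ}
    (hf : ComputableIn O f) : ComputableIn O fun a => inTb (f a) := by
  unfold inTb
  refine ball_comp (clen hf) ?_
  exact clt (cgetD 0 (ci_comp hf ci_fst) ci_snd) (cNN ci_snd)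

/-! ### `Σ₁` predicates -/

/-- `B` is recursively enumerable -/
def S1 (B : List ℕ → Prop) : Prop :=
  ∃ b : List ℕ → ℕ → Bool, ComputableIn₂ ∅ b ∧ ∀ τ, B τ ↔ ∃ w, b τ w = true

theorem S1.or {B C : List ℕ → Prop} (hB : S1 B) (hC : S1 C) : S1 fun τ => B τ ∨ C τ := by
  obtain ⟨b, hb, hb'⟩ := hB
  obtain ⟨c, hc, hc'⟩ := hC
  refine ⟨fun τ w => b τ w || c τ w, cor hb hc, fun τ => ?_⟩
  show B τ ∨ C τ ↔ ∃ w, (b τ w || c τ w) = true
  rw [hb', hc']
  simp only [Bool.or_eq_true]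
  exact exists_or.symm

/-! ### Functionals -/

/-- the functional with index `c` gives value `v` at `m` on some initial segment of `τ` -/
def Ev (c : Code) (m v : ℕ) (τ : List ℕ) : Prop :=
  ∃ τ', τ' <+: τ ∧ v ∈ c.eval (encode (τ', m))

theorem Ev.mono {c : Code} {m v : ℕ} {σ τ : List ℕ} (h : σ <+: τ) (hσ : Ev c m v σ) :
    Ev c m v τ := by
  obtain ⟨τ', h1, h2⟩ := hσ
  exact ⟨τ', h1.trans h, h2⟩

/-- approximations of `Ev` -/
def ev (c : Code) (m v : ℕ) (τ : List ℕ) (u : ℕ) : Bool :=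
  decide (Code.evaln (Nat.unpair u).1 c (encode (τ.take (Nat.unpair u).2, m)) = some v)

theorem ev_iff (c : Code) (m v : ℕ) (τ : List ℕ) : Ev c m v τ ↔ ∃ u, ev c m v τ u = true := by
  constructor
  · rintro ⟨τ', h1, h2⟩
    obtain ⟨s, hs⟩ := evaln_complete.1 h2
    refine ⟨Nat.pair s τ'.length, ?_⟩
    unfold ev
    rw [decide_eq_true_eq, Nat.unpair_pair]
    have : τ.take τ'.length = τ' := (List.prefix_iff_eq_take.1 h1).symm
    simp only [this]
    exact hs
  · rintro ⟨u, hu⟩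
    unfold ev at hu
    rw [decide_eq_true_eq] at hu
    exact ⟨τ.take (Nat.unpair u).2, List.take_prefix _ _, evaln_sound hu⟩

theorem cev {α : Type} [Primcodable α] {O : Set (ℕ →. ℕ)} (c : Code) {m v : α → ℕ}
    {τ : α → List ℕ} {u : α → ℕ} (hm : ComputableIn O m) (hv : ComputableIn O v)
    (hτ : ComputableIn O τ) (hu : ComputableIn O u) :
    ComputableIn O fun a => ev c (m a) (v a) (τ a) (u a) := by
  unfold ev
  have h1 : ComputableIn O fun a => encode ((τ a).take (Nat.unpair (u a)).2, m a) :=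
    ci_compC (f := fun p : List ℕ × ℕ => encode p) Computable.encode
      (ci_pair (ctake (cunr hu) hτ) hm)
  have h2 : ComputableIn O fun a => Code.evaln (Nat.unpair (u a)).1 c
      (encode ((τ a).take (Nat.unpair (u a)).2, m a)) :=
    ci_compC (f := fun p : (ℕ × Code) × ℕ => Code.evaln p.1.1 p.1.2 p.2)
      primrec_evaln.to_comp (ci_pair (ci_pair (cunl hu) (cconst c)) h1)
  have h3 : ComputableIn O fun a => some (v a) :=
    ci_compC (f := fun n : ℕ => some n) Computable.option_some hv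
  exact ceq h2 h3

/-- the functional converges at `m` with a value below `2 ^ (2 ^ m)` -/
def DD (c : Code) (m : ℕ) (τ : List ℕ) : Prop := ∃ v < 2 ^ (2 ^ m), Ev c m v τ

theorem DD.mono {c : Code} {m : ℕ} {σ τ : List ℕ} (h : σ <+: τ) (hσ : DD c m σ) :
    DD c m τ := by
  obtain ⟨v, hv, h1⟩ := hσ
  exact ⟨v, hv, h1.mono h⟩

theorem S1.DD (c : Code) (m : ℕ) : S1 (DD c m) := by
  refine ⟨fun τ w => decide ((Nat.unpair w).1 < 2 ^ (2 ^ m)) && ev c m (Nat.unpair w).1 τ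
    (Nat.unpair w).2, ?_, ?_⟩
  · exact cand (clt (cunl ci_snd) (cconst _)) (cev c (cconst m) (cunl ci_snd) ci_fst (cunr ci_snd))
  · intro τ
    unfold BN.DD
    constructor
    · rintro ⟨v, hv, h⟩
      obtain ⟨u, hu⟩ := (ev_iff c m v τ).1 h
      refine ⟨Nat.pair v u, ?_⟩
      rw [Bool.and_eq_true, decide_eq_true_eq, Nat.unpair_pair]
      exact ⟨hv, hu⟩
    · rintro ⟨w, hw⟩
      rw [Bool.and_eq_true, decide_eq_true_eq] at hw
      exact ⟨_, hw.1, (ev_iff _ _ _ _).2 ⟨_, hw.2⟩⟩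

/-! ### Conditions -/

/-- requirement functions -/
def rr (g : ℕ → ℕ) (k : ℕ) : ℕ := HH k * 2 ^ (g k * 2 ^ WW k)

theorem crr {g : ℕ → ℕ} {O : Set (ℕ →. ℕ)} (hg : ComputableIn O g) : ComputableIn O (rr g) :=
  cmul (cHH ComputableIn.id) (cpw 2 (cmul hg (cpw 2 (cWW ComputableIn.id))))

theorem rr_mono {g g' : ℕ → ℕ} {k : ℕ} (h : g k ≤ g' k) : rr g k ≤ rr g' k := by
  unfold rr
  gcongr
  norm_num

/-- forcing conditions -/
structure Cond where
  s : List ℕ
  B : List ℕ → Prop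
  g : ℕ → ℕ
  G : ℕ → ℕ
  hs : InT s
  hB : S1 B
  hg : ComputableIn ∅ g
  hG : ComputableIn ∅ G
  mono : ∀ σ τ, σ <+: τ → B σ → B τ
  small : ¬ Big (rr g) B s
  gap : ∀ C, ∃ K, ∀ k ≥ K, g k + C ≤ G k
  le : ∀ k ≥ s.length, g k ≤ G k ∧ G k ≤ k

instance : Preorder Cond where
  le p q := p.s <+: q.s ∧ (∀ τ, p.B τ → q.B τ) ∧ ∀ k ≥ q.s.length, p.g k ≤ q.g k ∧ q.G k ≤ p.G k
  le_refl p := ⟨List.prefix_refl _, fun _ h => h, fun _ _ => ⟨le_rfl, le_rfl⟩⟩
  le_trans p q r h1 h2 := ⟨h1.1.trans h2.1, fun τ h => h2.2.1 τ (h1.2.1 τ h), fun k hk =>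
    ⟨(h1.2.2 k (h2.1.length_le.trans hk)).1.trans (h2.2.2 k hk).1,
      (h2.2.2 k hk).2.trans (h1.2.2 k (h2.1.length_le.trans hk)).2⟩⟩

theorem Cond.le_def {p q : Cond} : p ≤ q ↔ p.s <+: q.s ∧ (∀ τ, p.B τ → q.B τ) ∧
    ∀ k ≥ q.s.length, p.g k ≤ q.g k ∧ q.G k ≤ p.G k := Iff.rfl

/-- change the stem -/
def Cond.stem (p : Cond) (t : List ℕ) (h1 : p.s <+: t) (h2 : InT t)
    (h3 : ¬ Big (rr p.g) p.B t) : Cond :=
  { p with s := t, hs := h2, small := h3, le := fun k hk => p.le k (h1.length_le.trans hk) }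

theorem Cond.le_stem (p : Cond) (t : List ℕ) (h1 : p.s <+: t) (h2 : InT t)
    (h3 : ¬ Big (rr p.g) p.B t) : p ≤ p.stem t h1 h2 h3 :=
  ⟨h1, fun _ h => h, fun _ _ => ⟨le_rfl, le_rfl⟩⟩

theorem Cond.not_B (p : Cond) : ¬ p.B p.s := fun h => p.small (.leaf _ h)

theorem Cond.ext_one (p : Cond) : ∃ j, j < NN p.s.length ∧ ¬ Big (rr p.g) p.B (p.s ++ [j]) := by
  by_contra hcon
  push Not at hcon
  refine p.small (.node p.s (Finset.range (NN p.s.length)) ?_ ?_ ?_)
  · intro j hj; exact Finset.mem_range.1 hj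
  · rw [Finset.card_range]
    refine le_trans ?_ (HH_mul_le p.s.length)
    unfold rr
    have h1 := p.le p.s.length le_rfl
    have h2 : p.g p.s.length ≤ p.s.length := h1.1.trans h1.2
    gcongr
    norm_num
  · intro j hj; exact hcon j (Finset.mem_range.1 hj)

theorem Cond.ext_len (p : Cond) (n : ℕ) :
    ∃ q : Cond, p ≤ q ∧ n ≤ q.s.length ∧ q.B = p.B ∧ q.g = p.g ∧ q.G = p.G := by
  induction n with
  | zero => exact ⟨p, le_rfl, Nat.zero_le _, rfl, rfl, rfl⟩
  | succ n ih =>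
    obtain ⟨q, h1, h2, h3, h4, h5⟩ := ih
    obtain ⟨j, hj, hB⟩ := q.ext_one
    refine ⟨q.stem (q.s ++ [j]) (List.prefix_append _ _) (q.hs.append hj) hB,
      h1.trans (q.le_stem _ _ _ _), ?_, h3, h4, h5⟩
    show n + 1 ≤ (q.s ++ [j]).length
    rw [List.length_append, List.length_singleton]
    omega

/-! ### Avoiding a computable function -/

theorem S1.hitAbove {x : ℕ → ℕ} (hx : ComputableIn ∅ x) (k₀ : ℕ) : S1 (HitAbove x k₀) := by
  refine ⟨fun τ _ => bex τ.length fun k => decide (k₀ ≤ k) && bex (bb (k + 1)) fun i =>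
    decide (bb k ≤ i) && decide (x i = τ.getD k 0 % 2 ^ i.factorial), ?_, ?_⟩
  · refine bex_comp (clen ci_fst) ?_
    refine cand (cle (cconst k₀) ci_snd) ?_
    refine bex_comp (cbb (cadd ci_snd (cconst 1))) ?_
    refine cand (cle (cbb (ci_comp ci_snd ci_fst)) ci_snd) ?_
    refine ceqN (ci_comp hx ci_snd) (cmod (cgetD 0 ?_ ?_) (cpw 2 (cfct ci_snd)))
    · exact ci_comp ci_fst (ci_comp ci_fst ci_fst)
    · exact ci_comp ci_snd ci_fst
  · intro τ
    simp only [bex_iff, Bool.and_eq_true, decide_eq_true_eq, exists_const]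
    unfold HitAbove Hit
    constructor
    · rintro ⟨k, hk, hl, i, hi1, hi2, hi3⟩
      refine ⟨k, hl, hk, i, hi2, hi1, ?_⟩
      rw [List.getD_eq_getElem _ _ hl]; exact hi3
    · rintro ⟨k, hl, hk, i, hi2, hi1, hi3⟩
      refine ⟨k, hk, hl, i, hi1, hi2, ?_⟩
      rw [List.getD_eq_getElem _ _ hl] at hi3; exact hi3

theorem dense_hit {x : ℕ → ℕ} (hx : ComputableIn ∅ x) (p : Cond) :
    ∃ q : Cond, p ≤ q ∧ ∃ k₀, ∀ τ, HitAbove x k₀ τ → q.B τ := by
  obtain ⟨K, hK⟩ := p.gap 1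
  obtain ⟨q, h1, h2, h3, h4, h5⟩ := p.ext_len K
  have hsmall : ¬ Big (rr fun k => q.g k + 1) (fun τ => q.B τ ∨ HitAbove x q.s.length τ) q.s := by
    intro hbig
    refine q.small (big_hit (x := x) (k₀ := q.s.length) (hbig.anti (fun _ _ h => h) ?_) le_rfl ?_)
    · intro k _
      show rr q.g k + HH k ≤ rr (fun k => q.g k + 1) k
      unfold rr
      have h6 : 1 ≤ 2 ^ (q.g k * 2 ^ WW k) := Nat.one_le_two_pow
      have h7 : 2 ≤ 2 ^ (2 ^ WW k) := by
        calc 2 = 2 ^ 1 := rfl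
          _ ≤ _ := Nat.pow_le_pow_right (by norm_num) Nat.one_le_two_pow
      calc HH k * 2 ^ (q.g k * 2 ^ WW k) + HH k
          ≤ HH k * 2 ^ (q.g k * 2 ^ WW k) + HH k * 2 ^ (q.g k * 2 ^ WW k) := by
            have : HH k * 1 ≤ HH k * 2 ^ (q.g k * 2 ^ WW k) := Nat.mul_le_mul_left _ h6
            omega
        _ = HH k * 2 ^ (q.g k * 2 ^ WW k) * 2 := by ring
        _ ≤ HH k * 2 ^ (q.g k * 2 ^ WW k) * 2 ^ (2 ^ WW k) := by gcongr
        _ = HH k * 2 ^ ((q.g k + 1) * 2 ^ WW k) := by rw [mul_assoc, ← pow_add]; ring_nf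
    · rintro ⟨k, hk1, hk2, -⟩
      omega
  refine ⟨{ s := q.s
            B := fun τ => q.B τ ∨ HitAbove x q.s.length τ
            g := fun k => q.g k + 1
            G := q.G
            hs := q.hs
            hB := q.hB.or (S1.hitAbove hx _)
            hg := cadd q.hg (cconst 1)
            hG := q.hG
            mono := ?_
            small := hsmall
            gap := ?_
            le := ?_ }, ?_, q.s.length, ?_⟩
  · rintro σ τ hστ (h | h)
    · exact Or.inl (q.mono σ τ hστ h)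
    · exact Or.inr (h.mono hστ)
  · intro C
    obtain ⟨K', hK'⟩ := q.gap (C + 1)
    exact ⟨K', fun k hk => by have := hK' k hk; omega⟩
  · intro k hk
    have := hK k (h2.trans hk)
    rw [h4, h5]
    have h6 := q.le k hk
    rw [h5] at h6
    exact ⟨this, h6.2⟩
  · refine h1.trans ⟨List.prefix_refl _, fun τ h => Or.inl h, fun k _ => ⟨Nat.le_succ _, le_rfl⟩⟩
  · intro τ h
    exact Or.inr h

end Pool.Agent.Helper67.BN
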