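import Mathlib
import Pool.Agent.Helper67.BN.Force

set_option autoImplicit false

namespace Pool.Agent.Helper67.BN

open Nat.Partrec (Code)
open Nat.Partrec.Code
open Encodable

theorem exists_search {α : Type} [Primcodable α] {q : α → ℕ → Bool} (hq : ComputableIn₂ ∅ q)
    (H : ∀ a, ∃ n, q a n = true) : ∃ F : α → ℕ, ComputableIn ∅ F ∧ ∀ a, q a (F a) = true := by
  classical
  have hq' : Computable₂ q := computable_of_ci hq
  have hP : ComputablePred (fun p : α × ℕ => q p.1 p.2 = true) :=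
    Computable.computablePred (by
      have : Computable fun p : α × ℕ => q p.1 p.2 := hq'
      simpa using this)
  exact ⟨_, (Computable.find (P := fun a n => q a n = true) hP H).computableIn,
    fun a => Nat.find_spec (H a)⟩

theorem color_bound {m W : ℕ} (h : m < W) : 2 ^ (2 ^ m) + 1 ≤ 2 ^ (2 ^ W) := by
  have h1 : 2 ^ m + 1 ≤ 2 ^ W := by
    have h2 : 2 ^ (m + 1) ≤ 2 ^ W := Nat.pow_le_pow_right (by norm_num) h
    have h3 : 1 ≤ 2 ^ m := Nat.one_le_two_pow
    rw [pow_succ] at h2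
    omega
  have h2 : 2 ^ (2 ^ m + 1) ≤ 2 ^ (2 ^ W) := Nat.pow_le_pow_right (by norm_num) h1
  have h3 : 1 ≤ 2 ^ (2 ^ m) := Nat.one_le_two_pow
  rw [pow_succ] at h2
  omega

/-- choosing the popular value -/
theorem popular {g : ℕ → ℕ} {B : List ℕ → Prop} {c : Code} {τ : List ℕ} (hτ : InT τ)
    (hg : ∀ k ≥ τ.length, 1 ≤ g k)
    (h : Big (rr g) (fun ρ => B ρ ∨ DD c (mm τ) ρ) τ) :
    Big (rr fun k => g k - 1) B τ ∨
      ∃ v < 2 ^ (2 ^ mm τ), Big (rr fun k => g k - 1) (Ev c (mm τ) v) τ := by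
  have h1 : Big (fun k => (2 ^ (2 ^ mm τ) + 1) * rr (fun k => g k - 1) k)
      (fun ρ => ∃ v < 2 ^ (2 ^ mm τ) + 1,
        (fun v ρ => if v < 2 ^ (2 ^ mm τ) then Ev c (mm τ) v ρ else B ρ) v ρ) τ := by
    refine h.anti ?_ ?_
    · rintro ρ - (hρ | ⟨v, hv, hρ⟩)
      · exact ⟨2 ^ (2 ^ mm τ), by omega, by simpa using hρ⟩
      · exact ⟨v, by omega, by simpa [hv] using hρ⟩
    · intro k hk
      have h2 : mm τ < WW k := lt_of_lt_of_le (mm_lt hτ) (WW_strictMono.monotone hk)
      have h3 := color_bound h2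
      have h4 := hg k hk
      obtain ⟨e, he⟩ : ∃ e, g k = e + 1 := ⟨g k - 1, by omega⟩
      unfold rr
      have he' : (fun k => g k - 1) k = e := by show g k - 1 = e; omega
      rw [he, he']
      calc (2 ^ (2 ^ mm τ) + 1) * (HH k * 2 ^ (e * 2 ^ WW k))
          ≤ 2 ^ (2 ^ WW k) * (HH k * 2 ^ (e * 2 ^ WW k)) := by gcongr
        _ = HH k * 2 ^ ((e + 1) * 2 ^ WW k) := by
          rw [Nat.add_mul, one_mul, pow_add]; ring
  obtain ⟨v, hv, h2⟩ := h1.color (Nat.succ_pos _)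
  by_cases hv' : v < 2 ^ (2 ^ mm τ)
  · right
    refine ⟨v, hv', ?_⟩
    simpa [hv'] using h2
  · left
    simpa [hv'] using h2

/-- the search for popular values -/
theorem exists_X {g : ℕ → ℕ} {B : List ℕ → Prop} (hB : S1 B) (hgc : ComputableIn ∅ g) {c : Code}
    {s : List ℕ} (hg : ∀ k ≥ s.length, 1 ≤ g k)
    (h : ∀ τ, s <+: τ → InT τ → Big (rr g) (fun ρ => B ρ ∨ DD c (mm τ) ρ) τ) :
    ∃ X : List ℕ → ℕ, ComputableIn ∅ X ∧ ∀ τ, s <+: τ → InT τ →
      Big (rr fun k => g k - 1) B τ ∨ Big (rr fun k => g k - 1) (Ev c (mm τ) (X τ)) τ := by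
  obtain ⟨b, hb, hbB⟩ := hB
  have hg' : ComputableIn ∅ fun k => g k - 1 := csub hgc (cconst 1)
  -- witnesses: `(v, w, L)`
  let dv : ℕ → ℕ × ℕ × List (List ℕ) := fun z => Denumerable.ofNat (ℕ × ℕ × List (List ℕ)) z
  let q : List ℕ → ℕ → Bool := fun τ z =>
    !(decide (τ.take s.length = s) && inTb τ) ||
      (cert (rr fun k => g k - 1) b τ (dv z).2.1 (dv z).2.2 ||
       cert (rr fun k => g k - 1) (ev c (mm τ) (dv z).1) τ (dv z).2.1 (dv z).2.2)
  have hdv : ComputableIn ∅ fun p : List ℕ × ℕ => dv p.2 :=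
    ci_compC (f := fun z => Denumerable.ofNat (ℕ × ℕ × List (List ℕ)) z)
      (Computable.ofNat _) ci_snd
  have hdv1 : ComputableIn ∅ fun p : List ℕ × ℕ => (dv p.2).1 :=
    ci_comp (f := fun p : ℕ × ℕ × List (List ℕ) => p.1) ci_fst hdv
  have hdv2 : ComputableIn ∅ fun p : List ℕ × ℕ => (dv p.2).2.1 :=
    ci_comp (f := fun p : ℕ × ℕ × List (List ℕ) => p.2.1) (ci_comp ci_fst ci_snd) hdv
  have hdv3 : ComputableIn ∅ fun p : List ℕ × ℕ => (dv p.2).2.2 :=
    ci_comp (f := fun p : ℕ × ℕ × List (List ℕ) => p.2.2) (ci_comp ci_snd ci_snd) hdv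
  have hq : ComputableIn₂ ∅ q := by
    refine cor (cnot (cand (ceq (ctake (cconst _) ci_fst) (cconst s)) (cinTb ci_fst))) (cor ?_ ?_)
    · exact ccert (crr hg') (e := fun _ : List ℕ × ℕ => b)
        (ci_comp (f := fun p : List ℕ × ℕ => b p.1 p.2)
          (g := fun p : (List ℕ × ℕ) × List ℕ × ℕ => p.2) hb ci_snd) ci_fst hdv2 hdv3
    · refine ccert (crr hg') (e := fun p : List ℕ × ℕ => ev c (mm p.1) (dv p.2).1) ?_ ci_fst
        hdv2 hdv3
      refine cev c (m := fun p : (List ℕ × ℕ) × List ℕ × ℕ => mm p.1.1)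
        (v := fun p : (List ℕ × ℕ) × List ℕ × ℕ => (dv p.1.2).1) (cmm (ci_comp ci_fst ci_fst)) ?_
        (ci_comp ci_fst ci_snd) (ci_comp ci_snd ci_snd)
      exact ci_comp (f := fun p : List ℕ × ℕ => (dv p.2).1)
        (g := fun p : (List ℕ × ℕ) × List ℕ × ℕ => p.1) hdv1 ci_fst
  have hex : ∀ τ, ∃ z, q τ z = true := by
    intro τ
    by_cases hτ : s <+: τ ∧ InT τ
    · obtain ⟨h1, h2⟩ := hτ
      rcases popular h2 (fun k hk => hg k (h1.length_le.trans hk)) (h τ h1 h2) with h3 | ⟨v, hv, h3⟩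
      · have h4 : Big (rr fun k => g k - 1) (fun ρ => ∃ u, b ρ u = true) τ :=
          h3.anti (fun ρ _ hρ => (hbB ρ).1 hρ) (fun _ _ => le_rfl)
        obtain ⟨w, L, hw⟩ := h4.cert
        refine ⟨encode ((0, w, L) : ℕ × ℕ × List (List ℕ)), ?_⟩
        simp only [q, dv, Denumerable.ofNat_encode, Bool.or_eq_true]
        right; left
        exact (cert_iff _ _ _ _ _).2 hw
      · have h4 : Big (rr fun k => g k - 1) (fun ρ => ∃ u, ev c (mm τ) v ρ u = true) τ :=
          h3.anti (fun ρ _ hρ => (ev_iff _ _ _ _).1 hρ) (fun _ _ => le_rfl)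
        obtain ⟨w, L, hw⟩ := h4.cert
        refine ⟨encode ((v, w, L) : ℕ × ℕ × List (List ℕ)), ?_⟩
        simp only [q, dv, Denumerable.ofNat_encode, Bool.or_eq_true]
        right; right
        exact (cert_iff _ _ _ _ _).2 hw
    · refine ⟨0, ?_⟩
      simp only [q, Bool.or_eq_true, Bool.not_eq_true']
      left
      rw [Bool.and_eq_false_iff]
      by_cases h1 : s <+: τ
      · right
        have h2 : ¬ InT τ := fun h2 => hτ ⟨h1, h2⟩
        rw [← inTb_iff, Bool.not_eq_true] at h2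
        exact h2
      · left
        rw [decide_eq_false_iff_not]
        intro h2
        exact h1 (List.prefix_iff_eq_take.2 h2.symm)
  obtain ⟨F, hF, hFq⟩ := exists_search hq hex
  refine ⟨fun τ => (dv (F τ)).1, ?_, ?_⟩
  · exact ci_comp (f := fun p : ℕ × ℕ × List (List ℕ) => p.1) ci_fst
      (ci_compC (f := fun z => Denumerable.ofNat (ℕ × ℕ × List (List ℕ)) z)
        (Computable.ofNat _) hF)
  · intro τ h1 h2
    have h3 := hFq τ
    simp only [q, Bool.or_eq_true, Bool.not_eq_true'] at h3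
    rcases h3 with h3 | h3 | h3
    · exfalso
      rw [Bool.and_eq_false_iff, decide_eq_false_iff_not] at h3
      rcases h3 with h3 | h3
      · exact h3 (List.prefix_iff_eq_take.1 h1).symm
      · rw [(inTb_iff τ).2 h2] at h3; exact Bool.noConfusion h3
    · left
      exact (((cert_iff _ _ _ _ _).1 h3).big).anti (fun ρ _ hρ => (hbB ρ).2 hρ) (fun _ _ => le_rfl)
    · right
      exact (((cert_iff _ _ _ _ _).1 h3).big).anti (fun ρ _ hρ => (ev_iff _ _ _ _).2 hρ)
        (fun _ _ => le_rfl)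

/-- `X` is correct at some node of level `≥ K` -/
def Hits (c : Code) (X : List ℕ → ℕ) (K : ℕ) (q : Cond) : Prop :=
  ∃ τ, τ <+: q.s ∧ K ≤ τ.length ∧ Ev c (mm τ) (X τ) q.s

theorem dense_F (c : Code) (p : Cond) : ∃ q : Cond, p ≤ q ∧
    ((∃ m, ∀ τ, DD c m τ → q.B τ) ∨
      ∃ X : List ℕ → ℕ, ComputableIn ∅ X ∧ ∀ K, ∀ q' : Cond, q ≤ q' → ∃ q'' : Cond, q' ≤ q'' ∧
        Hits c X K q'') := by
  -- `p₀` has a long stem
  obtain ⟨K₀, hK₀⟩ := p.gap 4
  obtain ⟨p₀, hp, hlen, hpB, hpg, hpG⟩ := p.ext_len K₀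
  have h4 : ∀ k ≥ p₀.s.length, p₀.g k + 4 ≤ p₀.G k := by
    intro k hk
    rw [hpg, hpG]
    exact hK₀ k (hlen.trans hk)
  set g' : ℕ → ℕ := fun k => p₀.g k + (p₀.G k - p₀.g k) / 2 with hg'
  have hg'c : ComputableIn ∅ g' := cadd p₀.hg (cdiv (csub p₀.hG p₀.hg) (cconst 2))
  by_cases h : ∃ τ, p₀.s <+: τ ∧ InT τ ∧ ∃ m, ¬ Big (rr g') (fun ρ => p₀.B ρ ∨ DD c m ρ) τ
  · obtain ⟨τ, h1, h2, m, h3⟩ := h
    refine ⟨{ s := τ
              B := fun ρ => p₀.B ρ ∨ DD c m ρ
              g := g'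
              G := p₀.G
              hs := h2
              hB := p₀.hB.or (S1.DD c m)
              hg := hg'c
              hG := p₀.hG
              mono := ?_
              small := h3
              gap := ?_
              le := ?_ }, ?_, Or.inl ⟨m, fun τ h => Or.inr h⟩⟩
    · rintro σ τ hστ (h | h)
      · exact Or.inl (p₀.mono σ τ hστ h)
      · exact Or.inr (h.mono hστ)
    · intro C
      obtain ⟨K, hK⟩ := p₀.gap (2 * C)
      refine ⟨K, fun k hk => ?_⟩
      have := hK k hk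
      simp only [hg']
      omega
    · intro k hk
      have h5 := p₀.le k (h1.length_le.trans hk)
      simp only [hg']
      omega
    · refine hp.trans ⟨h1, fun ρ hρ => Or.inl hρ, fun k hk => ⟨?_, le_rfl⟩⟩
      simp only [hg']
      omega
  · push Not at h
    obtain ⟨X, hX, hXp⟩ := exists_X (c := c) (s := p₀.s) p₀.hB hg'c (by
      intro k hk
      have := h4 k hk
      simp only [hg']
      omega) (fun τ h1 h2 => h τ h1 h2 (mm τ))
    set G'' : ℕ → ℕ := fun k => p₀.g k + (p₀.G k - p₀.g k) / 4 with hG''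
    have hG''c : ComputableIn ∅ G'' := cadd p₀.hg (cdiv (csub p₀.hG p₀.hg) (cconst 4))
    have hG''le : ∀ k ≥ p₀.s.length, G'' k ≤ g' k - 1 := by
      intro k hk
      have := h4 k hk
      simp only [hg', hG'']
      omega
    refine ⟨{ s := p₀.s
              B := p₀.B
              g := p₀.g
              G := G''
              hs := p₀.hs
              hB := p₀.hB
              hg := p₀.hg
              hG := hG''c
              mono := p₀.mono
              small := p₀.small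
              gap := ?_
              le := ?_ }, ?_, Or.inr ⟨X, hX, ?_⟩⟩
    · intro C
      obtain ⟨K, hK⟩ := p₀.gap (4 * C)
      refine ⟨K, fun k hk => ?_⟩
      have := hK k hk
      simp only [hG'']
      omega
    · intro k hk
      have h5 := p₀.le k hk
      simp only [hG'']
      omega
    · refine hp.trans ⟨List.prefix_refl _, fun ρ hρ => hρ, fun k hk => ⟨le_rfl, ?_⟩⟩
      have h5 := p₀.le k hk
      simp only [hG'']
      omega
    · intro K q' hq'
      obtain ⟨q₁, h1, h2, -, -, -⟩ := q'.ext_len K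
      have h3 := hq'.trans h1
      obtain ⟨h5, h6, h7⟩ := h3
      have hr : ∀ k, q₁.s.length ≤ k → rr q₁.g k ≤ rr (fun k => g' k - 1) k := by
        intro k hk
        apply rr_mono
        have h8 := (q₁.le k hk).1
        have h9 := (h7 k hk).2
        have h10 := hG''le k (h5.length_le.trans hk)
        exact h8.trans (h9.trans h10)
      rcases hXp q₁.s h5 q₁.hs with h8 | h8
      · exact absurd (h8.anti (fun ρ _ hρ => h6 ρ hρ) hr) q₁.small
      · have h9 := h8.anti (D' := Ev c (mm q₁.s) (X q₁.s)) (fun ρ _ hρ => hρ) hr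
        have h10 : ∃ t, q₁.s <+: t ∧ InT t ∧ Ev c (mm q₁.s) (X q₁.s) t ∧
            ¬ Big (rr q₁.g) q₁.B t := by
          by_contra hcon
          push Not at hcon
          exact q₁.small (h9.concat fun τ hτ hi hD => hcon τ hτ (hi q₁.hs) hD)
        obtain ⟨t, ht1, ht2, ht3, ht4⟩ := h10
        exact ⟨q₁.stem t ht1 ht2 ht4, h1.trans (q₁.le_stem _ _ _ _), q₁.s, ht1, h2, ht3⟩

end Pool.Agent.Helper67.BN
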